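import Pool.Agent.W361.LQ.Defs

/-!
# Project LQ: the approximate distance `F` is primitive recursive
-/

set_option autoImplicit false

namespace Pool.Agent.W19.LQ

open Pool.Agent.W361.LQ

variable {α : Type} [Primcodable α]

theorem p_pow {f : α → ℕ} (hf : Primrec f) : Primrec fun a => 2 ^ f a :=
  (Primrec₂.unpaired'.1 Nat.Primrec.pow).comp (Primrec.const 2) hf

theorem p_M {f : α → ℕ} (hf : Primrec f) : Primrec fun a => M (f a) :=
  Primrec.succ.comp (p_pow (p_pow hf))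

theorem p_getD {c : α → Cd} {n : α → ℕ} (hc : Primrec c) (hn : Primrec n) :
    Primrec fun a => (c a).2.2.getD (n a) (0, 0) :=
  (Primrec.list_getD (0, 0)).comp (Primrec.snd.comp (Primrec.snd.comp hc)) hn

theorem p_l {c : α → Cd} (hc : Primrec c) : Primrec fun a => 2 ^ (c a).2.1 :=
  p_pow (Primrec.fst.comp (Primrec.snd.comp hc))

theorem p_jj {c : α → Cd} {n : α → ℕ} (hc : Primrec c) (hn : Primrec n) :
    Primrec fun a => jj (c a) (n a) := Primrec.fst.comp (p_getD hc hn)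

theorem p_rho {c : α → Cd} {n : α → ℕ} (hc : Primrec c) (hn : Primrec n) :
    Primrec fun a => rho (c a) (n a) :=
  Primrec.nat_sub.comp (p_l hc)
    (Primrec.nat_min.comp (Primrec.snd.comp (p_getD hc hn)) (p_l hc))

theorem p_tr {P Q : α → ℕ} (hP : Primrec P) (hQ : Primrec Q) :
    Primrec fun a => tr (P a) (Q a) :=
  Primrec.nat_min.comp (Primrec.nat_mod.comp hP hQ)
    (Primrec.nat_sub.comp hQ (Primrec.nat_mod.comp hP hQ))

theorem p_zero {i : α → ℕ} (hi : Primrec i) : PrimrecPred fun a => i a = 0 :=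
  Primrec.eq.comp hi (Primrec.const 0)

theorem p_pred {i : α → ℕ} (hi : Primrec i) : Primrec fun a => i a - 1 :=
  Primrec.nat_sub.comp hi (Primrec.const 1)

theorem p_pP {c : α → Cd} {i : α → ℕ} (hc : Primrec c) (hi : Primrec i) :
    Primrec fun a => pP (c a) (i a) :=
  Primrec.ite (p_zero hi) (Primrec.fst.comp hc)
    (Primrec.nat_add.comp (Primrec.fst.comp hc)
      (Primrec.nat_mul.comp (p_jj hc (p_pred hi)) (p_l hc)))

theorem p_pQ {c : α → Cd} {i : α → ℕ} (hc : Primrec c) (hi : Primrec i) :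
    Primrec fun a => pQ (c a) (i a) :=
  Primrec.ite (p_zero hi) (p_l hc) (Primrec.nat_mul.comp (p_l hc) (p_M (p_pred hi)))

theorem p_pR {c : α → Cd} {i : α → ℕ} (hc : Primrec c) (hi : Primrec i) :
    Primrec fun a => pR (c a) (i a) :=
  Primrec.ite (p_zero hi) (p_l hc) (p_rho hc (p_pred hi))

theorem p_q0 {c : α → Cd} {i : α → ℕ} (hc : Primrec c) (hi : Primrec i) :
    Primrec fun a => q0 (c a) (i a) :=
  Primrec.pair (p_pR hc hi) (Primrec.nat_mul.comp (p_pow hi) (p_l hc))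

theorem p_q1 {c : α → Cd} {i : α → ℕ} (hc : Primrec c) (hi : Primrec i) :
    Primrec fun a => q1 (c a) (i a) :=
  Primrec.pair (Primrec.nat_mul.comp (p_pR hc hi) (p_tr (p_pP hc hi) (p_pQ hc hi)))
    (Primrec.nat_mul.comp (Primrec.nat_mul.comp (p_pow hi) (p_l hc)) (p_pQ hc hi))

theorem p_q2 {c : α → Cd} {i : α → ℕ} (hc : Primrec c) (hi : Primrec i) :
    Primrec fun a => q2 (c a) (i a) := by
  have h4 : Primrec fun a => 4 * pQ (c a) (i a) :=
    Primrec.nat_mul.comp (Primrec.const 4) (p_pQ hc hi)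
  have h5 : Primrec fun a => 4 * pP (c a) (i a) + pQ (c a) (i a) :=
    Primrec.nat_add.comp (Primrec.nat_mul.comp (Primrec.const 4) (p_pP hc hi)) (p_pQ hc hi)
  exact Primrec.pair (Primrec.nat_mul.comp (p_pR hc hi) (p_tr h5 h4))
    (Primrec.nat_mul.comp (Primrec.nat_mul.comp (p_pow hi) (p_l hc)) h4)

theorem p_fl {N : α → ℕ} {x : α → ℕ × ℕ} (hN : Primrec N) (hx : Primrec x) :
    Primrec fun a => 2 ^ N a * (x a).1 / (x a).2 :=
  Primrec.nat_div.comp (Primrec.nat_mul.comp (p_pow hN) (Primrec.fst.comp hx))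
    (Primrec.snd.comp hx)

theorem p_nd {N : α → ℕ} {x y : α → ℕ × ℕ} (hN : Primrec N) (hx : Primrec x)
    (hy : Primrec y) : Primrec fun a => nd (N a) (x a) (y a) :=
  Primrec.nat_add.comp (Primrec.nat_sub.comp (p_fl hN hx) (p_fl hN hy))
    (Primrec.nat_sub.comp (p_fl hN hy) (p_fl hN hx))

/-- one step of the maximum -/
def stp (N : ℕ) (c c' : Cd) (i : ℕ) : ℕ :=
  max (nd N (q0 c i) (q0 c' i)) (max (nd N (q1 c i) (q1 c' i)) (nd N (q2 c i) (q2 c' i)))

theorem p_stp {N i : α → ℕ} {c c' : α → Cd} (hN : Primrec N) (hc : Primrec c)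
    (hc' : Primrec c') (hi : Primrec i) : Primrec fun a => stp (N a) (c a) (c' a) (i a) :=
  Primrec.nat_max.comp (p_nd hN (p_q0 hc hi) (p_q0 hc' hi))
    (Primrec.nat_max.comp (p_nd hN (p_q1 hc hi) (p_q1 hc' hi))
      (p_nd hN (p_q2 hc hi) (p_q2 hc' hi)))

theorem mx_eq (N : ℕ) (c c' : Cd) (i : ℕ) :
    mx N c c' i = Nat.rec 0 (fun n IH => max IH (stp N c c' n)) i := by
  induction i with
  | zero => rfl
  | succ i ih =>
    have h1 : mx N c c' (i + 1) = max (mx N c c' i) (stp N c c' i) := rfl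
    rw [h1, ih]

theorem p_mx {N i : α → ℕ} {c c' : α → Cd} (hN : Primrec N) (hc : Primrec c)
    (hc' : Primrec c') (hi : Primrec i) : Primrec fun a => mx (N a) (c a) (c' a) (i a) := by
  have hh : Primrec₂ fun (a : α) (p : ℕ × ℕ) => max p.2 (stp (N a) (c a) (c' a) p.1) := by
    have h1 : Primrec fun q : α × (ℕ × ℕ) => q.2.1 := Primrec.fst.comp Primrec.snd
    exact Primrec.nat_max.comp (Primrec.snd.comp Primrec.snd)
      (p_stp (hN.comp Primrec.fst) (hc.comp Primrec.fst) (hc'.comp Primrec.fst) h1)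
  have h2 := Primrec.nat_rec' hi (Primrec.const 0) hh
  exact h2.of_eq fun a => (mx_eq (N a) (c a) (c' a) (i a)).symm

theorem p_F {c c' : α → Cd} {k : α → ℕ} (hc : Primrec c) (hc' : Primrec c')
    (hk : Primrec k) : Primrec fun a => F (c a) (c' a) (k a) :=
  Primrec.nat_div.comp (p_mx (Primrec.nat_add.comp hk (Primrec.const 3)) hc hc'
    (Primrec.nat_add.comp hk (Primrec.const 4))) (Primrec.const 8)

/-- the statement `S_FP` -/
theorem main : Primrec fun x : Cd × Cd × ℕ => F x.1 x.2.1 x.2.2 :=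
  p_F Primrec.fst (Primrec.fst.comp Primrec.snd) (Primrec.snd.comp Primrec.snd)

end Pool.Agent.W19.LQ
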